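import Pool.Agent.Work.MP_2738db_nt_U_helper40.Base

set_option autoImplicit false

namespace Pool.Agent.Work.MP_2738db_nt_U.helper40

open Finset Filter

lemma ev_pow {α β : ℝ} (C : ℝ) (h : α < β) : ∀ᶠ u : ℝ in atTop, C * u ^ α ≤ u ^ β := by
  have h1 := (tendsto_rpow_atTop (show 0 < β - α by linarith)).eventually_ge_atTop C
  filter_upwards [h1, eventually_gt_atTop 0] with u hu hu0
  calc C * u ^ α ≤ u ^ (β - α) * u ^ α :=
        mul_le_mul_of_nonneg_right hu (Real.rpow_nonneg hu0.le _)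
    _ = u ^ β := by rw [← Real.rpow_add hu0]; congr 1; ring

lemma ev_log {β : ℝ} (C : ℝ) (h : 0 < β) : ∀ᶠ u : ℝ in atTop, C * Real.log u ≤ u ^ β := by
  have h1 := (isLittleO_log_rpow_atTop h).bound (show (0 : ℝ) < 1 / (|C| + 1) by positivity)
  filter_upwards [h1, eventually_ge_atTop 1] with u hu hu1
  rw [Real.norm_eq_abs, Real.norm_eq_abs, abs_of_nonneg (Real.log_nonneg hu1),
    abs_of_nonneg (Real.rpow_nonneg (by linarith) _)] at hu
  have h2 : 0 ≤ Real.log u := Real.log_nonneg hu1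
  have h3 : C * Real.log u ≤ (|C| + 1) * Real.log u := by
    apply mul_le_mul_of_nonneg_right _ h2
    linarith [le_abs_self C]
  refine h3.trans ?_
  rw [← le_div_iff₀' (by positivity)]
  refine hu.trans (le_of_eq ?_)
  ring

lemma ev_exp {s c : ℝ} (D C : ℝ) (hs : 0 < s) (hc : 0 < c) :
    ∀ᶠ u : ℝ in atTop, C * u ^ D ≤ Real.exp (c * u ^ s) := by
  have h1 := (isLittleO_rpow_exp_pos_mul_atTop (D / s) hc).bound
    (show (0 : ℝ) < 1 / (|C| + 1) by positivity)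
  have h2 := (tendsto_rpow_atTop hs).eventually h1
  filter_upwards [h2, eventually_ge_atTop 1] with u hu hu1
  have hu0 : 0 ≤ u := by linarith
  rw [← Real.rpow_mul hu0, mul_div_cancel₀ _ hs.ne', Real.norm_eq_abs, Real.norm_eq_abs,
    abs_of_nonneg (Real.rpow_nonneg hu0 _), abs_of_nonneg (Real.exp_pos _).le] at hu
  have h4 : 0 ≤ u ^ D := Real.rpow_nonneg hu0 _
  have h3 : C * u ^ D ≤ (|C| + 1) * u ^ D := by
    apply mul_le_mul_of_nonneg_right _ h4
    linarith [le_abs_self C]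
  refine h3.trans ?_
  rw [← le_div_iff₀' (by positivity)]
  refine hu.trans (le_of_eq ?_)
  ring

/-- all numerical facts -/
structure Num (ε C T1 T2 : ℝ) (j A : ℕ) (u t y Lam : ℝ) : Prop where
  u1 : 3 ≤ u
  t1 : 1 ≤ t
  tT1 : T1 ≤ t
  tT2 : T2 ≤ t
  y3 : 3 ≤ y
  yu : y ≤ u
  ty : t ^ (3 / 2 : ℝ) ≤ y
  yA : y ≤ t ^ A
  LA : Lam ≤ t ^ A
  hd : 2 * u ^ (4 * j + 3) ≤ Real.exp (t / 2)
  he : 512 * t ≤ Real.exp (t / 20)
  hf : 2048 * t * u ^ (j + 2) ≤ Real.exp (t / 2)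
  hg : 12800 * u ^ (4 * j + 3) ≤ Real.exp (3 / 20 * t)
  hh : t * (1000 * y + 1) ≤ u
  hi : ∀ l : ℕ, Lam < l → C * u ^ (4 * j) * (1 + Real.log l) ^ 2 < l
  k2 : (4 * j + 1) * Real.log u ≤ y
  k3 : 3 * t ≤ y
  k4 : u ^ (1 - ε) ≤ y
  km : Real.log 2 ≤ u - u ^ (1 - ε)

theorem numeric (ε C T1 : ℝ) (hε0 : 0 < ε) (hε1 : ε < 1) (j A : ℕ)
    (hA : 3 * (4 * j + 2) ≤ ε * A) (T2 : ℝ) :
    ∃ u0 : ℝ, ∀ u : ℝ, u0 ≤ u →
      Num ε C T1 T2 j A u (u ^ (ε / 3)) (u ^ (1 - ε / 3) / 2000) (u ^ (4 * j + 1)) := by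
  have hs : 0 < ε / 3 := by linarith
  -- the threshold for `l`
  have hl : ∀ᶠ x : ℝ in atTop, |C| * (1 + Real.log x) ^ 2 < x ^ (1 / (4 * j + 1 : ℝ)) := by
    have hb : 0 < 1 / (4 * j + 1 : ℝ) / 4 := by positivity
    have h1 := ev_log (2 * (|C| + 1)) hb
    filter_upwards [h1, eventually_ge_atTop (Real.exp 1)] with x hx hx1
    have hx0 : 0 < x := lt_of_lt_of_le (Real.exp_pos _) hx1
    have hlx : 1 ≤ Real.log x := by rwa [Real.le_log_iff_exp_le hx0]
    have h2 : (|C| + 1) * (1 + Real.log x) ≤ x ^ (1 / (4 * j + 1 : ℝ) / 4) := by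
      refine le_trans ?_ hx
      nlinarith [abs_nonneg C]
    have h3 : ((|C| + 1) * (1 + Real.log x)) ^ 2 ≤ x ^ (1 / (4 * j + 1 : ℝ) / 2) := by
      calc ((|C| + 1) * (1 + Real.log x)) ^ 2 ≤ (x ^ (1 / (4 * j + 1 : ℝ) / 4)) ^ 2 :=
            pow_le_pow_left₀ (by positivity) h2 2
        _ = _ := by
            rw [← Real.rpow_natCast, ← Real.rpow_mul hx0.le]
            congr 1; push_cast; ring
    have hx1' : 1 < x := lt_of_lt_of_le (by
      have := Real.add_one_lt_exp (show (1 : ℝ) ≠ 0 by norm_num); linarith) hx1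
    have h4 : x ^ (1 / (4 * j + 1 : ℝ) / 2) < x ^ (1 / (4 * j + 1 : ℝ)) := by
      apply Real.rpow_lt_rpow_of_exponent_lt hx1'
      have : 0 < 1 / (4 * j + 1 : ℝ) := by positivity
      linarith
    have h5 : |C| * (1 + Real.log x) ^ 2 ≤ ((|C| + 1) * (1 + Real.log x)) ^ 2 := by
      rw [mul_pow]
      apply mul_le_mul_of_nonneg_right _ (by positivity)
      nlinarith [abs_nonneg C]
    linarith
  obtain ⟨x0, hx0⟩ := eventually_atTop.mp hl
  have e1 := (tendsto_rpow_atTop hs).eventually_ge_atTop (max 1 (max T1 T2))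
  have e2 := ev_pow 6000 (show (0 : ℝ) < 1 - ε / 3 by linarith)
  have e3 := ev_pow 2000 (show ε / 2 < 1 - ε / 3 by linarith)
  have e4 := ev_exp (4 * j + 3) 2 hs (show (0 : ℝ) < 1 / 2 by norm_num)
  have e5 := ev_exp (ε / 3) 512 hs (show (0 : ℝ) < 1 / 20 by norm_num)
  have e6 := ev_exp (ε / 3 + (j + 2)) 2048 hs (show (0 : ℝ) < 1 / 2 by norm_num)
  have e7 := ev_exp (4 * j + 3) 12800 hs (show (0 : ℝ) < 3 / 20 by norm_num)
  have e8 := ev_pow 2 (show ε / 3 < 1 by linarith)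
  have e9 := ev_log (2000 * (4 * j + 1)) (show (0 : ℝ) < 1 - ε / 3 by linarith)
  have e10 := ev_pow 6000 (show ε / 3 < 1 - ε / 3 by linarith)
  have e11 := ev_pow 2000 (show 1 - ε < 1 - ε / 3 by linarith)
  have e12 := ev_pow 2 (show 1 - ε < 1 by linarith)
  have e13 := eventually_ge_atTop (max 3 x0)
  obtain ⟨u0, hu0⟩ := eventually_atTop.mp (e1.and (e2.and (e3.and (e4.and (e5.and (e6.and
    (e7.and (e8.and (e9.and (e10.and (e11.and (e12.and e13))))))))))))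
  refine ⟨u0, fun u hu => ?_⟩
  obtain ⟨f1, f2, f3, f4, f5, f6, f7, f8, f9, f10, f11, f12, f13⟩ := hu0 u hu
  have hu3 : 3 ≤ u := (le_max_left _ _).trans f13
  have hu0' : 0 < u := by linarith
  have hu1 : 1 ≤ u := by linarith
  have hux0 : x0 ≤ u := (le_max_right _ _).trans f13
  have ht1 : 1 ≤ u ^ (ε / 3) := (le_max_left _ _).trans f1
  have hy0 : 0 < u ^ (1 - ε / 3) := Real.rpow_pos_of_pos hu0' _
  have hty : u ^ (ε / 3) * u ^ (1 - ε / 3) = u := by
    rw [← Real.rpow_add hu0']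
    conv_rhs => rw [← Real.rpow_one u]
    congr 1; ring
  have hpowA : u ^ (4 * j + 2 : ℕ) ≤ (u ^ (ε / 3)) ^ A := by
    rw [← Real.rpow_natCast, ← Real.rpow_natCast, ← Real.rpow_mul hu0'.le]
    apply Real.rpow_le_rpow_of_exponent_le hu1
    push_cast; linarith
  have hylu : u ^ (1 - ε / 3) ≤ u := by
    calc u ^ (1 - ε / 3) ≤ u ^ (1 : ℝ) := Real.rpow_le_rpow_of_exponent_le hu1 (by linarith)
      _ = u := Real.rpow_one u
  rw [Real.rpow_one] at f8 f12
  have hy2 : u ^ (1 - ε / 3) / 2000 ≤ u ^ (1 - ε / 3) := div_le_self hy0.le (by norm_num)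
  constructor
  · exact hu3
  · exact ht1
  · exact (le_max_left _ _).trans ((le_max_right _ _).trans f1)
  · exact (le_max_right _ _).trans ((le_max_right _ _).trans f1)
  · rw [Real.rpow_zero] at f2
    linarith
  · exact hy2.trans hylu
  · rw [← Real.rpow_mul hu0'.le, show ε / 3 * (3 / 2) = ε / 2 by ring]
    linarith
  · refine le_trans ?_ hpowA
    have h1 : u ^ (1 : ℕ) ≤ u ^ (4 * j + 2 : ℕ) := pow_le_pow_right₀ hu1 (by omega)
    rw [pow_one] at h1
    exact (hy2.trans hylu).trans h1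
  · refine le_trans ?_ hpowA
    exact pow_le_pow_right₀ hu1 (by omega)
  · have : (u : ℝ) ^ (4 * j + 3 : ℕ) = u ^ (4 * (j : ℝ) + 3) := by
      rw [← Real.rpow_natCast]; push_cast; rfl
    rw [this]
    refine f4.trans (le_of_eq ?_)
    congr 1; ring
  · refine f5.trans (le_of_eq ?_)
    congr 1; ring
  · have : (u : ℝ) ^ (j + 2 : ℕ) = u ^ ((j : ℝ) + 2) := by
      rw [← Real.rpow_natCast]; push_cast; rfl
    rw [this, mul_assoc, ← Real.rpow_add hu0']
    refine f6.trans (le_of_eq ?_)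
    congr 1; ring
  · have : (u : ℝ) ^ (4 * j + 3 : ℕ) = u ^ (4 * (j : ℝ) + 3) := by
      rw [← Real.rpow_natCast]; push_cast; rfl
    rw [this]
    exact f7
  · have : u ^ (ε / 3) * (1000 * (u ^ (1 - ε / 3) / 2000) + 1)
        = (u ^ (ε / 3) * u ^ (1 - ε / 3)) / 2 + u ^ (ε / 3) := by ring
    rw [this, hty]
    linarith only [f8]
  · intro l hl
    have hl0 : (0 : ℝ) < l := lt_trans (by positivity) hl
    have hlu : u ≤ l := by
      have h1 : u ^ (1 : ℕ) ≤ u ^ (4 * j + 1 : ℕ) := pow_le_pow_right₀ hu1 (by omega)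
      rw [pow_one] at h1
      linarith
    have h1 := hx0 l (hux0.trans hlu)
    have h2 : u ^ (4 * j : ℕ) ≤ (l : ℝ) ^ ((4 * j : ℝ) / (4 * j + 1)) := by
      have h3 : u ≤ (l : ℝ) ^ (1 / (4 * j + 1 : ℝ)) := by
        have h4 : (u ^ (4 * j + 1 : ℕ)) ^ (1 / (4 * j + 1 : ℝ)) ≤ (l : ℝ) ^ (1 / (4 * j + 1 : ℝ)) :=
          Real.rpow_le_rpow (by positivity) hl.le (by positivity)
        have h5 : (u ^ (4 * j + 1 : ℕ)) ^ (1 / (4 * j + 1 : ℝ)) = u := by
          rw [← Real.rpow_natCast, ← Real.rpow_mul hu0'.le]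
          push_cast
          rw [mul_one_div_cancel (by positivity), Real.rpow_one]
        rwa [h5] at h4
      calc u ^ (4 * j : ℕ) ≤ ((l : ℝ) ^ (1 / (4 * j + 1 : ℝ))) ^ (4 * j : ℕ) :=
            pow_le_pow_left₀ hu0'.le h3 _
        _ = _ := by
            rw [← Real.rpow_natCast, ← Real.rpow_mul hl0.le]
            congr 1; push_cast; field_simp
    have h6 : C * u ^ (4 * j) * (1 + Real.log l) ^ 2
        ≤ (l : ℝ) ^ ((4 * j : ℝ) / (4 * j + 1)) * (|C| * (1 + Real.log l) ^ 2) := by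
      calc C * u ^ (4 * j) * (1 + Real.log l) ^ 2 ≤ |C| * u ^ (4 * j) * (1 + Real.log l) ^ 2 := by
            gcongr
            exact le_abs_self C
        _ = u ^ (4 * j) * (|C| * (1 + Real.log l) ^ 2) := by ring
        _ ≤ _ := mul_le_mul_of_nonneg_right h2 (by positivity)
    have h7 : (l : ℝ) ^ ((4 * j : ℝ) / (4 * j + 1)) * (|C| * (1 + Real.log l) ^ 2)
        < (l : ℝ) ^ ((4 * j : ℝ) / (4 * j + 1)) * (l : ℝ) ^ (1 / (4 * j + 1 : ℝ)) :=
      mul_lt_mul_of_pos_left h1 (Real.rpow_pos_of_pos hl0 _)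
    have h8 : (l : ℝ) ^ ((4 * j : ℝ) / (4 * j + 1)) * (l : ℝ) ^ (1 / (4 * j + 1 : ℝ)) = l := by
      rw [← Real.rpow_add hl0, ← add_div, div_self (by positivity), Real.rpow_one]
    linarith
  · linarith
  · linarith
  · linarith
  · have h2 := Real.log_two_lt_d9
    linarith only [h2, f12, hu3]

end Pool.Agent.Work.MP_2738db_nt_U.helper40
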