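import Pool.Agent.Work.MP_2738db_nt_U_helper40.FIN

set_option autoImplicit false

namespace Pool.Agent.Work.MP_2738db_nt_U.helper40

open Finset Filter

/-- sign of the constant term -/
def sβ (s : ℕ) : ℤ := if s = 1 then 1 else -1
/-- sign of the power of `a` -/
def sρ (s : ℕ) : ℤ := if s = 2 then -1 else 1

/-- one set of the union bound -/
noncomputable def FS (N b : ℕ) (t y : ℝ) (n1 : ℕ) (θ : ℕ × ℕ × ℕ × ℕ × ℕ) : Finset ℕ := by
  classical
  exact (Icc 1 N).filter (fun c => ∀ q ∈ QQ t y n1 θ.1 θ.2.1, ∃ s : ZMod q,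
    (c : ZMod q) ^ θ.2.2.1 + ((sβ θ.2.2.2.2 * (b : ℤ) ^ θ.2.2.2.1 : ℤ) : ZMod q)
      = ((sρ θ.2.2.2.2 : ℤ) : ZMod q) * s ^ θ.1)

/-- the good parameters -/
def Good (b : ℕ) (t y : ℝ) (n1 : ℕ) (θ : ℕ × ℕ × ℕ × ℕ × ℕ) : Prop :=
  θ.1.Prime ∧ 1 ≤ θ.2.2.1 ∧ n1 ≤ (SP t y θ.1 θ.2.1).card ∧
    (∀ q ∈ QQ t y n1 θ.1 θ.2.1, 400 * (Nat.gcd θ.2.2.1 (q - 1)) ^ 2 ≤ q) ∧
    (∀ q ∈ QQ t y n1 θ.1 θ.2.1, ¬ q ∣ b)

lemma FS_card (hL : Stmt_Loc) (hC : Stmt_Crt) {N b : ℕ} {t y : ℝ} {n1 : ℕ}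
    (hN : Real.exp (t * n1) ≤ N) (θ : ℕ × ℕ × ℕ × ℕ × ℕ) (hθ : Good b t y n1 θ) :
    ((FS N b t y n1 θ).card : ℝ) ≤ 2 * N * (5 / 6 : ℝ) ^ n1 := by
  classical
  obtain ⟨hlp, hκ, hcard, hg, hb⟩ := hθ
  have hsub := QQ_sub hcard
  have hQp : ∀ q ∈ QQ t y n1 θ.1 θ.2.1, q.Prime := fun q hq => (mem_SP (hsub hq)).1
  have hq2 : ∀ q ∈ QQ t y n1 θ.1 θ.2.1, 400 ≤ q := by
    intro q hq
    have h1 := hg q hq
    have h2 : 1 ≤ (Nat.gcd θ.2.2.1 (q - 1)) ^ 2 :=
      Nat.one_le_pow _ _ (Nat.gcd_pos_of_pos_left _ hκ)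
    omega
  have h1 := one_set hL hC (N := N) (l := θ.1) (κ := θ.2.2.1) hlp hκ (QQ t y n1 θ.1 θ.2.1) hQp
    (by
      intro q hq
      obtain ⟨_, _, r₁, _, r₂, _, _, h4⟩ := mem_SP (hsub hq)
      refine ⟨2 * (r₁ * r₂) * θ.2.1, ?_⟩
      have : q - 1 = 2 * θ.1 * (r₁ * r₂) * θ.2.1 := by omega
      rw [this]; ring)
    hg (by
      have h2 : ((∏ q ∈ QQ t y n1 θ.1 θ.2.1, q : ℕ) : ℝ) ≤ N := by
        push_cast
        calc ∏ q ∈ QQ t y n1 θ.1 θ.2.1, (q : ℝ) ≤ ∏ _q ∈ QQ t y n1 θ.1 θ.2.1, Real.exp t := by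
              apply Finset.prod_le_prod
              · intro q _; positivity
              · intro q hq; exact (mem_SP (hsub hq)).2.1
          _ = Real.exp (t * n1) := by
              rw [Finset.prod_const, QQ_card hcard, mul_comm, Real.exp_nat_mul]
          _ ≤ N := hN
      exact_mod_cast h2)
    (sβ θ.2.2.2.2 * (b : ℤ) ^ θ.2.2.2.1) (sρ θ.2.2.2.2)
    (by
      intro q hq h
      haveI : Fact q.Prime := ⟨hQp q hq⟩
      rw [ZMod.intCast_zmod_eq_zero_iff_dvd] at h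
      have h3 : (q : ℤ) ∣ (b : ℤ) ^ θ.2.2.2.1 := by
        unfold sβ at h
        split_ifs at h
        · simpa using h
        · simpa using h
      have h4 := Int.Prime.dvd_pow' (hQp q hq) h3
      exact hb q hq (by exact_mod_cast h4))
    (by
      intro q hq h
      haveI : Fact q.Prime := ⟨hQp q hq⟩
      rw [ZMod.intCast_zmod_eq_zero_iff_dvd] at h
      have h5 := hq2 q hq
      have h3 : (q : ℤ) ∣ 1 := by
        unfold sρ at h
        split_ifs at h
        · simpa using h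
        · exact h
      have := Int.le_of_dvd (by norm_num) h3
      omega)
  rw [QQ_card hcard] at h1
  refine le_trans (le_of_eq ?_) h1
  congr 1
  have h2 : {c : ℕ | 1 ≤ c ∧ c ≤ N ∧ ∀ q ∈ QQ t y n1 θ.1 θ.2.1, ∃ s : ZMod q,
      (c : ZMod q) ^ θ.2.2.1 + ((sβ θ.2.2.2.2 * (b : ℤ) ^ θ.2.2.2.1 : ℤ) : ZMod q)
        = ((sρ θ.2.2.2.2 : ℤ) : ZMod q) * s ^ θ.1} = ↑(FS N b t y n1 θ) := by
    ext c
    unfold FS
    simp only [Set.mem_setOf_eq, coe_filter, mem_Icc, and_assoc]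
  rw [h2, Set.ncard_coe_finset]

/-- the final numerical inequality -/
lemma count_num {ε C T1 T2 u t y Lam : ℝ} {j A : ℕ} (num : Num ε C T1 T2 j A u t y Lam)
    (hLam : Lam = u ^ (4 * j + 1)) {N n1 : ℕ} (hN : Real.log N = u) (hN0 : 0 < N)
    (hn1 : 1000 * y ≤ n1) :
    1 + (Lam * (Real.exp t * (Real.exp (t + 2 * y * Real.log 4) * (Real.exp (t + 2 * y * Real.log 4) * 3)))) *
      (2 * N * (5 / 6 : ℝ) ^ n1) ≤ N * Real.exp (-u ^ (1 - ε)) := by
  have hNr : (N : ℝ) = Real.exp u := by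
    rw [← hN, Real.exp_log (by exact_mod_cast hN0)]
  have hu0 : 0 < u := by linarith [num.u1]
  have h56 : (5 / 6 : ℝ) ^ n1 ≤ Real.exp (-(180 * y)) := by
    have h1 : (5 / 6 : ℝ) ≤ Real.exp (-(18 / 100)) := by
      have h2 := Real.exp_bound' (x := 18 / 100) (by norm_num) (by norm_num) (n := 3) (by norm_num)
      have h3 : Real.exp (18 / 100) ≤ 6 / 5 := by
        refine h2.trans ?_
        norm_num [Finset.sum_range_succ, Nat.factorial]
      rw [Real.exp_neg, le_inv_comm₀ (by norm_num) (Real.exp_pos _)]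
      refine h3.trans (by norm_num)
    calc (5 / 6 : ℝ) ^ n1 ≤ (Real.exp (-(18 / 100))) ^ n1 := pow_le_pow_left₀ (by norm_num) h1 _
      _ = Real.exp (n1 * (-(18 / 100))) := by rw [Real.exp_nat_mul]
      _ ≤ _ := by
          apply Real.exp_le_exp.mpr
          linarith
  have hLexp : Lam = Real.exp ((4 * j + 1) * Real.log u) := by
    rw [hLam]
    have : ((4 * j + 1 : ℕ) : ℝ) = 4 * (j : ℝ) + 1 := by push_cast; ring
    rw [← this, Real.exp_nat_mul, Real.exp_log hu0]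
  have h6 : (6 : ℝ) ≤ Real.exp y := by
    have h7 : (4 : ℝ) ≤ y + 1 := by linarith [num.y3]
    have h8 : Real.exp 3 ≤ Real.exp y := Real.exp_le_exp.mpr num.y3
    have h9 : (6 : ℝ) ≤ Real.exp 3 := by
      have h10 : Real.exp 3 = Real.exp 1 * Real.exp 1 * Real.exp 1 := by
        rw [← Real.exp_add, ← Real.exp_add]; norm_num
      have h11 := Real.exp_one_gt_d9
      rw [h10]
      have h12 : (2.7 : ℝ) < Real.exp 1 := by linarith
      nlinarith [mul_pos (show (0:ℝ) < Real.exp 1 by positivity) (show (0:ℝ) < Real.exp 1 by positivity)]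
    linarith
  have hlog4 : Real.log 4 ≤ 14 / 10 := by
    have : Real.log 4 = 2 * Real.log 2 := by
      rw [show (4 : ℝ) = 2 ^ 2 by norm_num, Real.log_pow]; norm_num
    have := Real.log_two_lt_d9
    linarith
  have hmain : (Lam * (Real.exp t * (Real.exp (t + 2 * y * Real.log 4) * (Real.exp (t + 2 * y * Real.log 4) * 3)))) *
      (2 * N * (5 / 6 : ℝ) ^ n1) ≤ N * Real.exp (-(170 * y)) := by
    have hN0' : (0 : ℝ) < N := by exact_mod_cast hN0
    calc (Lam * (Real.exp t * (Real.exp (t + 2 * y * Real.log 4) * (Real.exp (t + 2 * y * Real.log 4) * 3)))) *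
        (2 * N * (5 / 6 : ℝ) ^ n1)
        = N * (6 * (Lam * (Real.exp t * (Real.exp (t + 2 * y * Real.log 4) * Real.exp (t + 2 * y * Real.log 4)))) *
          (5 / 6 : ℝ) ^ n1) := by ring
      _ ≤ N * (Real.exp y * (Lam * (Real.exp t * (Real.exp (t + 2 * y * Real.log 4) * Real.exp (t + 2 * y * Real.log 4)))) *
          Real.exp (-(180 * y))) := by
          apply mul_le_mul_of_nonneg_left _ hN0'.le
          have hL0 : 0 ≤ Lam := by rw [hLam]; positivity
          apply mul_le_mul _ h56 (by positivity) (by positivity)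
          apply mul_le_mul_of_nonneg_right h6 (by positivity)
      _ = N * Real.exp (y + ((4 * j + 1) * Real.log u + (t + ((t + 2 * y * Real.log 4) + (t + 2 * y * Real.log 4)))) + -(180 * y)) := by
          rw [hLexp, ← Real.exp_add, ← Real.exp_add, ← Real.exp_add, ← Real.exp_add, ← Real.exp_add]
      _ ≤ N * Real.exp (-(170 * y)) := by
          apply mul_le_mul_of_nonneg_left _ hN0'.le
          apply Real.exp_le_exp.mpr
          have k2 := num.k2
          have k3 := num.k3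
          have hy := num.y3
          have h1 : 2 * y * Real.log 4 ≤ 2 * y * (14 / 10) :=
            mul_le_mul_of_nonneg_left hlog4 (by linarith)
          linarith
  have hone : 1 ≤ N * (Real.exp (-u ^ (1 - ε)) / 2) := by
    have km := num.km
    rw [hNr, ← mul_div_assoc, ← Real.exp_add, le_div_iff₀ (by norm_num), one_mul]
    calc (2 : ℝ) = Real.exp (Real.log 2) := (Real.exp_log (by norm_num)).symm
      _ ≤ _ := Real.exp_le_exp.mpr (by linarith)
  have htwo : Real.exp (-(170 * y)) ≤ Real.exp (-u ^ (1 - ε)) / 2 := by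
    rw [le_div_iff₀ (by norm_num)]
    have k4 := num.k4
    have hy := num.y3
    have h2 := Real.log_two_lt_d9
    calc Real.exp (-(170 * y)) * 2 = Real.exp (-(170 * y)) * Real.exp (Real.log 2) := by
          rw [Real.exp_log (by norm_num)]
      _ = Real.exp (-(170 * y) + Real.log 2) := by rw [← Real.exp_add]
      _ ≤ _ := Real.exp_le_exp.mpr (by linarith)
  have hN0' : (0 : ℝ) < N := by exact_mod_cast hN0
  calc 1 + (Lam * (Real.exp t * (Real.exp (t + 2 * y * Real.log 4) * (Real.exp (t + 2 * y * Real.log 4) * 3)))) *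
      (2 * N * (5 / 6 : ℝ) ^ n1) ≤ N * (Real.exp (-u ^ (1 - ε)) / 2) + N * (Real.exp (-u ^ (1 - ε)) / 2) :=
        add_le_add hone (hmain.trans (mul_le_mul_of_nonneg_left htwo hN0'.le))
    _ = _ := by ring

theorem stmt_U (hL : Stmt_Loc) (hS : Stmt_Smo) (hP : Stmt_Pri) (hC : Stmt_Crt)
    (hSt : Stmt_Step) : Stmt_U := by
  classical
  intro ε hε0 hε1
  obtain ⟨C, hC1, hst⟩ := hSt
  obtain ⟨T1, hT1⟩ := hS
  set j : ℕ := ⌈1 / ε⌉₊ with hj
  have hj1 : 1 / ε ≤ j := Nat.le_ceil _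
  set A : ℕ := ⌈3 * (4 * j + 2) / ε⌉₊ with hA
  have hA1 : 3 * (4 * (j : ℝ) + 2) ≤ ε * A := by
    have := Nat.le_ceil (3 * (4 * (j : ℝ) + 2) / ε)
    rw [div_le_iff₀ hε0] at this
    linarith
  obtain ⟨T2, hT2⟩ := hP A
  obtain ⟨u0, hu0⟩ := numeric ε C T1 hε0 hε1 j A hA1 T2
  refine ⟨ε / 9, by positivity, ⌈Real.exp u0⌉₊ + 1, ?_⟩
  intro N hN b hb hbN
  have hN0 : 0 < N := by omega
  have hNr : (0 : ℝ) < N := by exact_mod_cast hN0
  set u := Real.log N with hu
  have huu : u0 ≤ u := by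
    rw [hu, Real.le_log_iff_exp_le hNr]
    have h1 : ((⌈Real.exp u0⌉₊ + 1 : ℕ) : ℝ) ≤ N := by exact_mod_cast hN
    push_cast at h1
    have := Nat.le_ceil (Real.exp u0)
    linarith
  have num := hu0 u huu
  set t := u ^ (ε / 3) with ht
  set y := u ^ (1 - ε / 3) / 2000 with hy
  set Lam := u ^ (4 * j + 1) with hLam
  have hu3 := num.u1
  have hu0' : 0 < u := by linarith
  have hu1 : 1 ≤ u := by linarith
  have hy3 := num.y3
  have ht1 := num.t1
  have hδ : u ^ (ε / 9) = t ^ (1 / 3 : ℝ) := by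
    rw [ht, ← Real.rpow_mul hu0'.le]
    congr 1; ring
  have hwj : u ^ (1 / ε) ≤ u ^ j := by
    rw [← Real.rpow_natCast]
    exact Real.rpow_le_rpow_of_exponent_le hu1 hj1
  have hwu : u ≤ u ^ (1 / ε) := by
    have h1 : u ^ (1 : ℝ) ≤ u ^ (1 / ε) := by
      apply Real.rpow_le_rpow_of_exponent_le hu1
      rw [le_div_iff₀ hε0]; linarith
    rwa [Real.rpow_one] at h1
  set n1 : ℕ := ⌈1000 * y⌉₊ with hn1
  have hn1l : 1000 * y ≤ n1 := Nat.le_ceil _
  have hn1u : (n1 : ℝ) ≤ 1000 * y + 1 := (Nat.ceil_lt_add_one (by linarith)).le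
  set X := Real.exp (t + 2 * y * Real.log 4) with hX
  set Θ : Finset (ℕ × ℕ × ℕ × ℕ × ℕ) :=
    Icc 1 ⌊Lam⌋₊ ×ˢ (Icc 1 ⌊Real.exp t⌋₊ ×ˢ (Icc 1 ⌊X⌋₊ ×ˢ (Icc 1 ⌊X⌋₊ ×ˢ range 3))) with hΘ
  have hLam0 : 0 ≤ Lam := by rw [hLam]; positivity
  have hΘc : (Θ.card : ℝ) ≤ Lam * (Real.exp t * (X * (X * 3))) := by
    rw [hΘ, card_product, card_product, card_product, card_product, Nat.card_Icc, Nat.card_Icc,
      Nat.card_Icc, card_range]
    simp only [Nat.add_sub_cancel]
    push_cast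
    have a1 := Nat.floor_le hLam0
    have a2 := Nat.floor_le (Real.exp_pos t).le
    have a3 := Nat.floor_le (show 0 ≤ X from (Real.exp_pos _).le)
    gcongr
  -- the inclusion
  have hincl : Exc N b (u ^ (1 / ε)) (Real.exp (u ^ (ε / 9)))
      ⊆ ↑(({1} : Finset ℕ) ∪ (Θ.filter (Good b t y n1)).biUnion (FS N b t y n1)) := by
    intro c hc
    obtain ⟨hc1, hcN, hbc, ⟨p, hp, hpd, hpw⟩, a, m, n, k, ha, hm, hn, hk, hkV, heq⟩ := hc
    rw [coe_union, coe_singleton]
    by_cases hc2 : c = 1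
    · left; exact hc2
    right
    have hc2' : 2 ≤ c := by omega
    rw [mem_coe, mem_biUnion]
    -- the prime exponent
    have hls : ∃ l s : ℕ, l.Prime ∧ (l : ℝ) ≤ Lam ∧ a ^ m = s ^ l := by
      by_cases ha1 : a = 1
      · refine ⟨2, 1, Nat.prime_two, ?_, by rw [ha1]; simp⟩
        have h1 : u ^ (1 : ℕ) ≤ u ^ (4 * j + 1 : ℕ) := pow_le_pow_right₀ hu1 (by omega)
        rw [pow_one] at h1
        push_cast; linarith
      · have hl := Nat.minFac_prime (show m ≠ 1 by omega)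
        obtain ⟨m', hm'⟩ := Nat.minFac_dvd m
        set l := m.minFac with hldef
        have ham : a ^ m = (a ^ m') ^ l := by
          conv_lhs => rw [hm', mul_comm, pow_mul]
        by_cases hlL : (l : ℝ) ≤ Lam
        · exact ⟨l, a ^ m', hl, hlL, ham⟩
        · exfalso
          rw [not_le] at hlL
          have hm0 : m' ≠ 0 := by
            rintro rfl
            rw [mul_zero] at hm'; omega
          have ha2 : 2 ≤ a ^ m' := by
            calc 2 ≤ a := by omega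
              _ = a ^ 1 := (pow_one a).symm
              _ ≤ a ^ m' := Nat.pow_le_pow_right (by omega) (by omega)
          have hthr := num.hi l hlL
          have hw2 : C * (u ^ (1 / ε)) ^ 2 * (u ^ (1 / ε)) ^ 2 * (1 + Real.log l) ^ 2 < l := by
            refine lt_of_le_of_lt ?_ hthr
            have h1 : (u ^ (1 / ε)) ^ 2 * (u ^ (1 / ε)) ^ 2 ≤ u ^ (4 * j) := by
              have h0 : 0 ≤ u ^ (1 / ε) := by linarith
              calc (u ^ (1 / ε)) ^ 2 * (u ^ (1 / ε)) ^ 2 ≤ (u ^ j) ^ 2 * (u ^ j) ^ 2 := by gcongr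
                _ = u ^ (4 * j) := by rw [← pow_mul, ← pow_add]; congr 1; ring
            calc C * (u ^ (1 / ε)) ^ 2 * (u ^ (1 / ε)) ^ 2 * (1 + Real.log l) ^ 2
                = C * ((u ^ (1 / ε)) ^ 2 * (u ^ (1 / ε)) ^ 2) * (1 + Real.log l) ^ 2 := by ring
              _ ≤ C * u ^ (4 * j) * (1 + Real.log l) ^ 2 := by
                  apply mul_le_mul_of_nonneg_right _ (by positivity)
                  apply mul_le_mul_of_nonneg_left h1 (by linarith)
          have hlogc : Real.log c ≤ u ^ (1 / ε) := by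
            refine le_trans ?_ hwu
            rw [hu]
            apply Real.log_le_log
            · exact_mod_cast (by omega : 0 < c)
            · exact_mod_cast hcN
          have h := hst (a ^ m') b c n k l p (u ^ (1 / ε)) (u ^ (1 / ε)) ha2 hb hc2' hbc hn hk hl hp hpd
            (by linarith) hpw (by linarith) hbN hlogc hw2
          rw [ham] at heq
          rcases heq with h1 | h1 | h1
          · exact h.1 h1
          · exact h.2.1 h1
          · exact h.2.2 h1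
    obtain ⟨l, s, hlp, hlL, has⟩ := hls
    have hl1 : 1 ≤ l := hlp.one_lt.le
    rw [has] at heq
    obtain ⟨k₀, hk01, hkK, hcard, hgcd, hk09, hndvd⟩ := good_k0 num hLam hT1 hT2 hl1 hlL hb
      (hbN.trans hwj) hk (by rw [← hδ]; exact hkV)
    obtain ⟨hK1, hK2, hK3⟩ := KK_bounds hl1 hlL hLam num.y3 num.yu num.u1 num.hd
    have hn1c : n1 ≤ (SP t y l k₀).card := by
      have : (n1 : ℝ) ≤ (SP t y l k₀).card := hn1u.trans hcard
      exact_mod_cast this
    have hy0 : 0 ≤ y := by linarith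
    have hprodpos : 0 < ∏ r ∈ PY y, r :=
      Finset.prod_pos fun r hr => (mem_PY hy0 hr).1.pos
    have hLM0 : 0 < LM y l k₀ := by
      unfold LM
      have : 0 < l := hl1
      have : 0 < k₀ := hk01
      positivity
    have hLMX : (LM y l k₀ : ℝ) ≤ X := by
      unfold LM
      push_cast
      have h1 := prod_PY_le hy0
      push_cast at h1
      have h2 : (2 : ℝ) * l * k₀ ≤ Real.exp t := by
        refine le_trans ?_ hK3
        apply mul_le_mul_of_nonneg_left hkK (by positivity)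
      rw [hX, Real.exp_add]
      apply mul_le_mul h2 h1 (by positivity) (Real.exp_pos _).le
    set κ := (k - 1) % LM y l k₀ + 1 with hκ
    set ν := (n - 1) % LM y l k₀ + 1 with hν
    have hκL : κ ≤ LM y l k₀ := by
      have := Nat.mod_lt (k - 1) hLM0
      omega
    have hνL : ν ≤ LM y l k₀ := by
      have := Nat.mod_lt (n - 1) hLM0
      omega
    have hκX : κ ≤ ⌊X⌋₊ := Nat.le_floor ((Nat.cast_le.mpr hκL).trans hLMX)
    have hνX : ν ≤ ⌊X⌋₊ := Nat.le_floor ((Nat.cast_le.mpr hνL).trans hLMX)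
    have hsub := QQ_sub hn1c
    -- the sign
    have key : ∃ σ < 3, ∀ q ∈ QQ t y n1 l k₀, ∃ s : ZMod q,
        (c : ZMod q) ^ κ + ((sβ σ * (b : ℤ) ^ ν : ℤ) : ZMod q) = ((sρ σ : ℤ) : ZMod q) * s ^ l := by
      rcases heq with h1 | h1 | h1
      · refine ⟨0, by norm_num, fun q hq => ⟨(s : ZMod q), ?_⟩⟩
        have hq' := hsub hq
        have h2 := congrArg (fun z : ℕ => (z : ZMod q)) h1
        push_cast at h2
        rw [pow_red (mem_SP hq').1 hLM0 (SP_dvd hq') hk, pow_red (mem_SP hq').1 hLM0 (SP_dvd hq') hn] at h2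
        rw [← hκ, ← hν] at h2
        rw [show sβ 0 = -1 from rfl, show sρ 0 = 1 from rfl]
        push_cast
        rw [← h2]; ring
      · refine ⟨1, by norm_num, fun q hq => ⟨(s : ZMod q), ?_⟩⟩
        have hq' := hsub hq
        have h2 := congrArg (fun z : ℕ => (z : ZMod q)) h1
        push_cast at h2
        rw [pow_red (mem_SP hq').1 hLM0 (SP_dvd hq') hk, pow_red (mem_SP hq').1 hLM0 (SP_dvd hq') hn] at h2
        rw [← hκ, ← hν] at h2
        rw [show sβ 1 = 1 from rfl, show sρ 1 = 1 from rfl]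
        push_cast
        rw [one_mul, one_mul, ← h2]; ring
      · refine ⟨2, by norm_num, fun q hq => ⟨(s : ZMod q), ?_⟩⟩
        have hq' := hsub hq
        have h2 := congrArg (fun z : ℕ => (z : ZMod q)) h1
        push_cast at h2
        rw [pow_red (mem_SP hq').1 hLM0 (SP_dvd hq') hk, pow_red (mem_SP hq').1 hLM0 (SP_dvd hq') hn] at h2
        rw [← hκ, ← hν] at h2
        rw [show sβ 2 = -1 from rfl, show sρ 2 = -1 from rfl]
        push_cast
        rw [← h2]; ring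
    obtain ⟨σ, hσ, hσq⟩ := key
    refine ⟨(l, k₀, κ, ν, σ), ?_, ?_⟩
    · rw [mem_filter, hΘ, mem_product, mem_product, mem_product, mem_product, mem_Icc, mem_Icc,
        mem_Icc, mem_Icc, mem_range]
      refine ⟨⟨⟨hl1, Nat.le_floor hlL⟩, ⟨hk01, Nat.le_floor (hkK.trans hK2)⟩,
        ⟨Nat.le_add_left 1 _, hκX⟩, ⟨Nat.le_add_left 1 _, hνX⟩, hσ⟩, ?_⟩
      refine ⟨hlp, Nat.le_add_left 1 _, hn1c, ?_, ?_⟩
      · intro q hq
        have hq' := hsub hq
        show 400 * (Nat.gcd κ (q - 1)) ^ 2 ≤ q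
        rw [hκ, gcd_red hLM0 (SP_dvd hq') hk]
        exact gcd_small num hLam hl1 hlL hgcd hk09 hk01 hq'
      · intro q hq
        exact hndvd q (hsub hq)
    · unfold FS
      rw [mem_filter, mem_Icc]
      exact ⟨⟨hc1, hcN⟩, hσq⟩
  have hNn : Real.exp (t * n1) ≤ N := by
    have h1 : t * n1 ≤ u := (mul_le_mul_of_nonneg_left hn1u (by linarith)).trans num.hh
    calc Real.exp (t * n1) ≤ Real.exp u := Real.exp_le_exp.mpr h1
      _ = N := by rw [hu, Real.exp_log hNr]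
  have hcardU : ((({1} : Finset ℕ) ∪ (Θ.filter (Good b t y n1)).biUnion (FS N b t y n1)).card : ℝ)
      ≤ 1 + (Lam * (Real.exp t * (X * (X * 3)))) * (2 * N * (5 / 6 : ℝ) ^ n1) := by
    have h1 : ((({1} : Finset ℕ) ∪ (Θ.filter (Good b t y n1)).biUnion (FS N b t y n1)).card : ℝ)
        ≤ 1 + ∑ θ ∈ Θ.filter (Good b t y n1), ((FS N b t y n1 θ).card : ℝ) := by
      have h2 : (({1} : Finset ℕ) ∪ (Θ.filter (Good b t y n1)).biUnion (FS N b t y n1)).card
          ≤ 1 + ∑ θ ∈ Θ.filter (Good b t y n1), (FS N b t y n1 θ).card := by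
        refine (card_union_le _ _).trans ?_
        rw [card_singleton]
        exact Nat.add_le_add_left card_biUnion_le _
      exact_mod_cast h2
    refine h1.trans ?_
    have h3 : ∑ θ ∈ Θ.filter (Good b t y n1), ((FS N b t y n1 θ).card : ℝ)
        ≤ ∑ _θ ∈ Θ.filter (Good b t y n1), (2 * N * (5 / 6 : ℝ) ^ n1) := by
      apply Finset.sum_le_sum
      intro θ hθ
      exact FS_card hL hC hNn θ (mem_filter.mp hθ).2
    rw [Finset.sum_const, nsmul_eq_mul] at h3
    have h4 : ((Θ.filter (Good b t y n1)).card : ℝ) ≤ Lam * (Real.exp t * (X * (X * 3))) := by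
      refine le_trans ?_ hΘc
      exact_mod_cast card_filter_le _ _
    have h5 : ((Θ.filter (Good b t y n1)).card : ℝ) * (2 * N * (5 / 6 : ℝ) ^ n1)
        ≤ (Lam * (Real.exp t * (X * (X * 3)))) * (2 * N * (5 / 6 : ℝ) ^ n1) :=
      mul_le_mul_of_nonneg_right h4 (by positivity)
    linarith
  have hfin := count_num num hLam hu.symm hN0 hn1l
  have h1 : (Exc N b (u ^ (1 / ε)) (Real.exp (u ^ (ε / 9)))).ncard
      ≤ (({1} : Finset ℕ) ∪ (Θ.filter (Good b t y n1)).biUnion (FS N b t y n1)).card := by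
    have := Set.ncard_le_ncard hincl (Finset.finite_toSet _)
    rwa [Set.ncard_coe_finset] at this
  have h2 : ((Exc N b (u ^ (1 / ε)) (Real.exp (u ^ (ε / 9)))).ncard : ℝ)
      ≤ ((({1} : Finset ℕ) ∪ (Θ.filter (Good b t y n1)).biUnion (FS N b t y n1)).card : ℝ) := by
    exact_mod_cast h1
  exact h2.trans (hcardU.trans hfin)

end Pool.Agent.Work.MP_2738db_nt_U.helper40
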