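import Pool.Agent.Work.MP_2738db_nt_U.Interface

set_option autoImplicit false

namespace Pool.Agent.Work.MP_2738db_nt_U.helper40

open Finset Filter

lemma pow_red {q L k : ℕ} (hq : q.Prime) (hL : 0 < L) (hdvd : q - 1 ∣ L) (hk : 1 ≤ k) (x : ZMod q) :
    x ^ k = x ^ ((k - 1) % L + 1) := by
  haveI : Fact q.Prime := ⟨hq⟩
  have h1 : k = (k - 1) % L + 1 + L * ((k - 1) / L) := by
    have := Nat.mod_add_div (k - 1) L
    omega
  by_cases hx : x = 0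
  · subst hx
    rw [zero_pow (by omega), zero_pow (by omega)]
  · conv_lhs => rw [h1, pow_add, pow_mul]
    obtain ⟨d, hd⟩ := hdvd
    have h2 : x ^ L = 1 := by
      rw [hd, pow_mul, ZMod.pow_card_sub_one_eq_one hx, one_pow]
    rw [h2, one_pow, mul_one]

lemma gcd_red {q L k : ℕ} (hL : 0 < L) (hdvd : q - 1 ∣ L) (hk : 1 ≤ k) :
    Nat.gcd ((k - 1) % L + 1) (q - 1) = Nat.gcd k (q - 1) := by
  have h1 : k = (k - 1) % L + 1 + L * ((k - 1) / L) := by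
    have := Nat.mod_add_div (k - 1) L
    omega
  have h2 : (k - 1) % L + 1 ≡ k [MOD (q - 1)] := by
    have h3 : (k - 1) % L + 1 ≡ k [MOD L] := by
      unfold Nat.ModEq
      conv_rhs => rw [h1]
      rw [Nat.add_mul_mod_self_left]
    exact h3.of_dvd hdvd
  exact h2.gcd_eq

lemma card_PY_le {y : ℝ} (hy : 0 ≤ y) : ((PY y).card : ℝ) ≤ 2 * y := by
  unfold PY
  have h1 : ((Ioc ⌊y⌋₊ ⌊2 * y⌋₊).filter Nat.Prime).card ≤ ⌊2 * y⌋₊ := by
    refine (card_filter_le _ _).trans ?_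
    rw [Nat.card_Ioc]; omega
  calc (((Ioc ⌊y⌋₊ ⌊2 * y⌋₊).filter Nat.Prime).card : ℝ) ≤ (⌊2 * y⌋₊ : ℝ) := by exact_mod_cast h1
    _ ≤ 2 * y := Nat.floor_le (by linarith)

lemma mem_PY {y : ℝ} (hy : 0 ≤ y) {r : ℕ} (hr : r ∈ PY y) : r.Prime ∧ y < r ∧ (r : ℝ) ≤ 2 * y := by
  unfold PY at hr
  rw [mem_filter, mem_Ioc] at hr
  refine ⟨hr.2, (Nat.floor_lt hy).mp hr.1.1, ?_⟩
  exact (Nat.cast_le.mpr hr.1.2).trans (Nat.floor_le (by linarith))

lemma prod_PY_le {y : ℝ} (hy : 0 ≤ y) : ((∏ r ∈ PY y, r : ℕ) : ℝ) ≤ Real.exp (2 * y * Real.log 4) := by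
  have h1 : (∏ r ∈ PY y, r) ≤ primorial ⌊2 * y⌋₊ := by
    unfold primorial
    apply Finset.prod_le_prod_of_subset_of_one_le'
    · intro r hr
      unfold PY at hr
      rw [mem_filter, mem_Ioc] at hr
      rw [mem_filter, mem_range]
      exact ⟨by omega, hr.2⟩
    · intro r hr _
      rw [mem_filter] at hr
      exact hr.2.one_lt.le
  have h2 := h1.trans (primorial_le_four_pow _)
  calc ((∏ r ∈ PY y, r : ℕ) : ℝ) ≤ ((4 ^ ⌊2 * y⌋₊ : ℕ) : ℝ) := by exact_mod_cast h2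
    _ = Real.exp ((⌊2 * y⌋₊ : ℝ) * Real.log 4) := by
        rw [Real.exp_nat_mul, Real.exp_log (by norm_num)]; push_cast; rfl
    _ ≤ _ := by
        apply Real.exp_le_exp.mpr
        apply mul_le_mul_of_nonneg_right (Nat.floor_le (by linarith)) (Real.log_nonneg (by norm_num))

lemma mem_SP {t y : ℝ} {l k₀ q : ℕ} (h : q ∈ SP t y l k₀) : q.Prime ∧ (q : ℝ) ≤ Real.exp t ∧
    ∃ r₁ ∈ PY y, ∃ r₂ ∈ PY y, r₁ < r₂ ∧ q = 1 + 2 * l * (r₁ * r₂) * k₀ := by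
  classical
  unfold SP at h
  rw [mem_filter, mem_range] at h
  refine ⟨h.2.1, ?_, h.2.2⟩
  have : q ≤ ⌊Real.exp t⌋₊ := by omega
  exact (Nat.cast_le.mpr this).trans (Nat.floor_le (Real.exp_pos t).le)

lemma SP_dvd {t y : ℝ} {l k₀ q : ℕ} (h : q ∈ SP t y l k₀) : q - 1 ∣ LM y l k₀ := by
  obtain ⟨_, _, r₁, h1, r₂, h2, h3, h4⟩ := mem_SP h
  have h5 : r₁ * r₂ ∣ ∏ r ∈ PY y, r := by
    have h6 : ({r₁, r₂} : Finset ℕ) ⊆ PY y := by
      intro x hx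
      rw [mem_insert, mem_singleton] at hx
      rcases hx with rfl | rfl <;> assumption
    have h7 := Finset.prod_dvd_prod_of_subset ({r₁, r₂} : Finset ℕ) (PY y) (fun r => r) h6
    rwa [Finset.prod_pair h3.ne] at h7
  obtain ⟨d, hd⟩ := h5
  refine ⟨d, ?_⟩
  unfold LM
  rw [hd, h4]
  have : 1 + 2 * l * (r₁ * r₂) * k₀ - 1 = 2 * l * (r₁ * r₂) * k₀ := by omega
  rw [this]; ring

lemma omega_le {m : ℕ} (hm : 0 < m) : (m.primeFactors.card : ℝ) ≤ 2 * Real.log m := by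
  have h5 : 2 ^ m.primeFactors.card ≤ m := by
    calc 2 ^ m.primeFactors.card ≤ ∏ p ∈ m.primeFactors, p := by
          rw [← prod_const]
          exact prod_le_prod (fun _ _ => by norm_num)
            (fun p hp => (Nat.prime_of_mem_primeFactors hp).two_le)
      _ ≤ m := Nat.le_of_dvd hm (Nat.prod_primeFactors_dvd m)
  have h6 : Real.log ((2 ^ m.primeFactors.card : ℕ) : ℝ) ≤ Real.log m := by
    apply Real.log_le_log
    · positivity
    · exact_mod_cast h5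
  rw [Nat.cast_pow, Real.log_pow] at h6
  have h7 := Real.log_two_gt_d9
  have h8 : (0 : ℝ) ≤ m.primeFactors.card := by positivity
  push_cast at h6
  nlinarith

/-- the `k₀` with a sieving prime dividing `b` -/
lemma card_div {t y : ℝ} (hy : 1 ≤ y) {l b : ℕ} (hl : 1 ≤ l) (hb : 0 < b) (K : ℕ) :
    ((((Icc 1 K).filter (fun k₀ => ∃ q ∈ SP t y l k₀, q ∣ b)).card : ℕ) : ℝ)
      ≤ 2 * Real.log b * (2 * y) ^ 2 := by
  classical
  have hy0 : 0 ≤ y := by linarith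
  have h1 : ((Icc 1 K).filter (fun k₀ => ∃ q ∈ SP t y l k₀, q ∣ b)).card
      ≤ (b.primeFactors ×ˢ (PY y ×ˢ PY y)).card := by
    apply Finset.card_le_card_of_surjOn (fun z => (z.1 - 1) / (2 * l * (z.2.1 * z.2.2)))
    intro k₀ hk
    rw [mem_coe, mem_filter, mem_Icc] at hk
    obtain ⟨hk0, q, hq, hqb⟩ := hk
    obtain ⟨hqp, _, r₁, h1, r₂, h2, h3, h4⟩ := mem_SP hq
    refine ⟨(q, r₁, r₂), ?_, ?_⟩
    · rw [mem_coe, mem_product, mem_product]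
      exact ⟨Nat.mem_primeFactors.mpr ⟨hqp, hqb, hb.ne'⟩, h1, h2⟩
    · show (q - 1) / (2 * l * (r₁ * r₂)) = k₀
      have hr1 := (mem_PY hy0 h1).1.pos
      have hr2 := (mem_PY hy0 h2).1.pos
      have : q - 1 = 2 * l * (r₁ * r₂) * k₀ := by omega
      rw [this, Nat.mul_div_cancel_left _ (by positivity)]
  have h2 : (((b.primeFactors ×ˢ (PY y ×ˢ PY y)).card : ℕ) : ℝ) ≤ 2 * Real.log b * (2 * y) ^ 2 := by
    rw [card_product, card_product]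
    push_cast
    have h3 := omega_le hb
    have h4 := card_PY_le hy0
    calc (b.primeFactors.card : ℝ) * ((PY y).card * (PY y).card)
        ≤ (2 * Real.log b) * ((2 * y) * (2 * y)) := by
          apply mul_le_mul h3 (mul_le_mul h4 h4 (by positivity) (by positivity)) (by positivity)
          exact le_trans (by positivity) h3
      _ = _ := by ring
  exact le_trans (by exact_mod_cast h1) h2

/-- one set of the union bound -/
lemma one_set (hL : Stmt_Loc) (hC : Stmt_Crt) {N l κ : ℕ} (hlp : l.Prime) (hκ : 1 ≤ κ)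
    (Q : Finset ℕ) (hQ : ∀ q ∈ Q, q.Prime) (hQl : ∀ q ∈ Q, l ∣ q - 1)
    (hQg : ∀ q ∈ Q, 400 * (Nat.gcd κ (q - 1)) ^ 2 ≤ q) (hQN : ∏ q ∈ Q, q ≤ N)
    (β ρ : ℤ) (hβ : ∀ q ∈ Q, (β : ZMod q) ≠ 0) (hρ : ∀ q ∈ Q, (ρ : ZMod q) ≠ 0) :
    (({c : ℕ | 1 ≤ c ∧ c ≤ N ∧ ∀ q ∈ Q, ∃ s : ZMod q,
      (c : ZMod q) ^ κ + (β : ZMod q) = (ρ : ZMod q) * s ^ l}.ncard : ℕ) : ℝ)
      ≤ 2 * N * (5 / 6 : ℝ) ^ Q.card := by
  have h1 := hC Q hQ N hQN (fun q c => ∃ s : ZMod q,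
      (c : ZMod q) ^ κ + (β : ZMod q) = (ρ : ZMod q) * s ^ l) (by
    intro q _ c c' hcc h
    rw [← hcc]; exact h) (by
    intro q hq
    haveI : Fact q.Prime := ⟨hQ q hq⟩
    have h2 := hL q l κ (hQ q hq) hlp (hQl q hq) hκ (hQg q hq) (β : ZMod q) (ρ : ZMod q) (hβ q hq) (hρ q hq)
    refine le_trans (Nat.mul_le_mul_left 6 ?_) h2
    apply Nat.card_le_card_of_injective
      (fun x : {x : Fin q // ∃ s : ZMod q, (((x : Fin q) : ℕ) : ZMod q) ^ κ + (β : ZMod q) = (ρ : ZMod q) * s ^ l} =>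
        (⟨(((x : Fin q) : ℕ) : ZMod q), x.2⟩ : {x : ZMod q // ∃ s : ZMod q, x ^ κ + (β : ZMod q) = (ρ : ZMod q) * s ^ l}))
    intro x x' hxx
    have h3 : (((x : Fin q) : ℕ) : ZMod q) = (((x' : Fin q) : ℕ) : ZMod q) := congrArg Subtype.val hxx
    have h4 := (ZMod.natCast_eq_natCast_iff' _ _ _).mp h3
    rw [Nat.mod_eq_of_lt x.1.2, Nat.mod_eq_of_lt x'.1.2] at h4
    exact Subtype.ext (Fin.ext h4))
  exact h1

end Pool.Agent.Work.MP_2738db_nt_U.helper40
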