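import Pool.Agent.Work.MP_2738db_nt_U_helper40.Num

set_option autoImplicit false

namespace Pool.Agent.Work.MP_2738db_nt_U.helper40

open Finset Filter

/-- the chosen sieving primes -/
noncomputable def QQ (t y : ℝ) (n1 l k₀ : ℕ) : Finset ℕ := by
  classical
  exact if h : n1 ≤ (SP t y l k₀).card then (Finset.exists_subset_card_eq h).choose else ∅

lemma QQ_sub {t y : ℝ} {n1 l k₀ : ℕ} (h : n1 ≤ (SP t y l k₀).card) : QQ t y n1 l k₀ ⊆ SP t y l k₀ := by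
  unfold QQ
  rw [dif_pos h]
  exact (Finset.exists_subset_card_eq h).choose_spec.1

lemma QQ_card {t y : ℝ} {n1 l k₀ : ℕ} (h : n1 ≤ (SP t y l k₀).card) : (QQ t y n1 l k₀).card = n1 := by
  unfold QQ
  rw [dif_pos h]
  exact (Finset.exists_subset_card_eq h).choose_spec.2

lemma KK_bounds {t y Lam : ℝ} {l : ℕ} {u : ℝ} {j : ℕ} (hl : 1 ≤ l) (hlL : (l : ℝ) ≤ Lam)
    (hLam : Lam = u ^ (4 * j + 1)) (hy : 3 ≤ y) (hyu : y ≤ u) (hu : 3 ≤ u)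
    (hd : 2 * u ^ (4 * j + 3) ≤ Real.exp (t / 2)) :
    Real.exp (t / 2) ≤ KK t y l ∧ KK t y l ≤ Real.exp t ∧ 2 * l * KK t y l ≤ Real.exp t := by
  have hlr : (1 : ℝ) ≤ l := by exact_mod_cast hl
  have h1 : 2 * (l : ℝ) * y ^ 2 ≤ 2 * u ^ (4 * j + 3) := by
    calc 2 * (l : ℝ) * y ^ 2 ≤ 2 * u ^ (4 * j + 1) * u ^ 2 := by
          rw [hLam] at hlL
          gcongr
      _ = _ := by ring
  have h0 : 0 < 2 * (l : ℝ) * y ^ 2 := by positivity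
  have hE := Real.exp_pos t
  unfold KK
  refine ⟨?_, ?_, ?_⟩
  · rw [le_div_iff₀ h0]
    calc Real.exp (t / 2) * (2 * l * y ^ 2) ≤ Real.exp (t / 2) * Real.exp (t / 2) :=
          mul_le_mul_of_nonneg_left (h1.trans hd) (Real.exp_pos _).le
      _ = Real.exp t := by rw [← Real.exp_add]; congr 1; ring
  · rw [div_le_iff₀ h0]
    have h2 : 1 ≤ 2 * (l : ℝ) * y ^ 2 := by nlinarith
    nlinarith
  · rw [mul_div_assoc', div_le_iff₀ h0]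
    have h2 : 2 * (l : ℝ) ≤ 2 * (l : ℝ) * y ^ 2 := by
      have : 1 ≤ y ^ 2 := by nlinarith
      nlinarith
    calc 2 * (l : ℝ) * Real.exp t ≤ (2 * (l : ℝ) * y ^ 2) * Real.exp t :=
          mul_le_mul_of_nonneg_right h2 hE.le
      _ = _ := by ring

/-- existence of a good `k₀` -/
lemma good_k0 {ε C T1 T2 u t y Lam : ℝ} {j A : ℕ} (num : Num ε C T1 T2 j A u t y Lam)
    (hLam : Lam = u ^ (4 * j + 1))
    (hT1 : ∀ t K : ℝ, T1 ≤ t → Real.exp (t / 2) ≤ K → K ≤ Real.exp t → ∀ k : ℕ, 1 ≤ k →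
      Real.log k ≤ Real.exp (t ^ (1 / 3 : ℝ)) →
      (((Icc 1 ⌊K⌋₊).filter (fun k₀ => K ^ (3 / 10 : ℝ) < (Nat.gcd k k₀ : ℝ))).card : ℝ)
        ≤ K / (256 * t))
    (hT2 : ∀ t y : ℝ, T2 ≤ t → t ^ (3 / 2 : ℝ) ≤ y → y ≤ t ^ A →
      ∀ l : ℕ, 1 ≤ l → (l : ℝ) ≤ t ^ A → ∀ E : Finset ℕ, (E.card : ℝ) ≤ KK t y l / (64 * t) →
        ∃ k₀ : ℕ, k₀ ∉ E ∧ 1 ≤ k₀ ∧ (k₀ : ℝ) ≤ KK t y l ∧ 1000 * y + 1 ≤ ((SP t y l k₀).card : ℝ))
    {l b k : ℕ} (hl : 1 ≤ l) (hlL : (l : ℝ) ≤ Lam) (hb : 2 ≤ b) (hbu : Real.log b ≤ u ^ j)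
    (hk : 1 ≤ k) (hkt : Real.log k ≤ Real.exp (t ^ (1 / 3 : ℝ))) :
    ∃ k₀ : ℕ, 1 ≤ k₀ ∧ (k₀ : ℝ) ≤ KK t y l ∧ 1000 * y + 1 ≤ ((SP t y l k₀).card : ℝ) ∧
      (Nat.gcd k k₀ : ℝ) ≤ (KK t y l) ^ (3 / 10 : ℝ) ∧ (KK t y l) ^ (9 / 10 : ℝ) ≤ k₀ ∧
      ∀ q ∈ SP t y l k₀, ¬ q ∣ b := by
  classical
  obtain ⟨hK1, hK2, hK3⟩ := KK_bounds hl hlL hLam num.y3 num.yu num.u1 num.hd
  set K := KK t y l with hK
  have ht1 := num.t1
  have hKpos : 0 < K := lt_of_lt_of_le (Real.exp_pos _) hK1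
  set E1 := (Icc 1 ⌊K⌋₊).filter (fun k₀ => K ^ (3 / 10 : ℝ) < (Nat.gcd k k₀ : ℝ)) with hE1
  set E2 := Icc 1 ⌊K ^ (9 / 10 : ℝ)⌋₊ with hE2
  set E3 := (Icc 1 ⌊K⌋₊).filter (fun k₀ => ∃ q ∈ SP t y l k₀, q ∣ b) with hE3
  have c1 : (E1.card : ℝ) ≤ K / (256 * t) := hT1 t K num.tT1 hK1 hK2 k hk hkt
  have c2 : (E2.card : ℝ) ≤ K / (512 * t) := by
    have h1 : (E2.card : ℝ) ≤ K ^ (9 / 10 : ℝ) := by
      rw [hE2, Nat.card_Icc, Nat.add_sub_cancel]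
      exact Nat.floor_le (Real.rpow_nonneg hKpos.le _)
    have h2 : 512 * t ≤ K ^ (1 / 10 : ℝ) := by
      refine num.he.trans ?_
      calc Real.exp (t / 20) = (Real.exp (t / 2)) ^ (1 / 10 : ℝ) := by
            rw [← Real.exp_mul]; congr 1; ring
        _ ≤ K ^ (1 / 10 : ℝ) := Real.rpow_le_rpow (Real.exp_pos _).le hK1 (by norm_num)
    refine h1.trans ?_
    rw [le_div_iff₀ (by positivity)]
    calc K ^ (9 / 10 : ℝ) * (512 * t) ≤ K ^ (9 / 10 : ℝ) * K ^ (1 / 10 : ℝ) :=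
          mul_le_mul_of_nonneg_left h2 (Real.rpow_nonneg hKpos.le _)
      _ = K := by rw [← Real.rpow_add hKpos]; norm_num
  have c3 : (E3.card : ℝ) ≤ K / (256 * t) := by
    have h1 := card_div (t := t) (y := y) (by linarith [num.y3]) hl (by omega : 0 < b) ⌊K⌋₊
    have h1' : (E3.card : ℝ) ≤ 2 * Real.log b * (2 * y) ^ 2 := h1
    refine h1'.trans ?_
    have h2 : 2 * Real.log b * (2 * y) ^ 2 ≤ 8 * u ^ (j + 2) := by
      have hy := num.yu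
      have hy3 := num.y3
      have hu := num.u1
      have h3 : (2 * y) ^ 2 ≤ 4 * u ^ 2 := by nlinarith
      have hlb : 0 ≤ Real.log b := Real.log_nonneg (by exact_mod_cast (by omega : 1 ≤ b))
      calc 2 * Real.log b * (2 * y) ^ 2 ≤ (2 * u ^ j) * (4 * u ^ 2) := by
            apply mul_le_mul (by linarith) h3 (by positivity) (by positivity)
        _ = 8 * u ^ (j + 2) := by ring
    refine h2.trans ?_
    rw [le_div_iff₀ (by positivity)]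
    have h4 := num.hf
    calc 8 * u ^ (j + 2) * (256 * t) = 2048 * t * u ^ (j + 2) := by ring
      _ ≤ Real.exp (t / 2) := h4
      _ ≤ K := hK1
  have cE : (((E1 ∪ E2 ∪ E3 : Finset ℕ)).card : ℝ) ≤ K / (64 * t) := by
    have h1 : ((E1 ∪ E2 ∪ E3 : Finset ℕ)).card ≤ E1.card + E2.card + E3.card :=
      (card_union_le _ _).trans (Nat.add_le_add_right (card_union_le _ _) _)
    have h2 : (((E1 ∪ E2 ∪ E3 : Finset ℕ)).card : ℝ) ≤ E1.card + E2.card + E3.card := by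
      exact_mod_cast h1
    have h3 : K / (256 * t) + K / (512 * t) + K / (256 * t) ≤ K / (64 * t) := by
      have : K / (256 * t) + K / (512 * t) + K / (256 * t) = (5 / 8) * (K / (64 * t)) := by
        field_simp; ring
      rw [this]
      have : 0 ≤ K / (64 * t) := by positivity
      linarith
    linarith
  obtain ⟨k₀, hk0, hk1, hkK, hcard⟩ := hT2 t y num.tT2 num.ty num.yA l hl (hlL.trans num.LA) _ cE
  rw [mem_union, mem_union, not_or, not_or] at hk0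
  obtain ⟨⟨n1, n2⟩, n3⟩ := hk0
  have hmem : k₀ ∈ Icc 1 ⌊K⌋₊ := by
    rw [mem_Icc]; exact ⟨hk1, Nat.le_floor hkK⟩
  refine ⟨k₀, hk1, hkK, hcard, ?_, ?_, ?_⟩
  · by_contra h
    rw [not_le] at h
    exact n1 (mem_filter.mpr ⟨hmem, h⟩)
  · by_contra h
    rw [not_le] at h
    exact n2 (mem_Icc.mpr ⟨hk1, Nat.le_floor h.le⟩)
  · intro q hq hqb
    exact n3 (mem_filter.mpr ⟨hmem, q, hq, hqb⟩)

/-- the sieving primes are large compared with the common divisor of `q - 1` and `k` -/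
lemma gcd_small {ε C T1 T2 u t y Lam : ℝ} {j A : ℕ} (num : Num ε C T1 T2 j A u t y Lam)
    (hLam : Lam = u ^ (4 * j + 1)) {l k k₀ q : ℕ} (hl : 1 ≤ l) (hlL : (l : ℝ) ≤ Lam)
    (hgcd : (Nat.gcd k k₀ : ℝ) ≤ (KK t y l) ^ (3 / 10 : ℝ)) (hk0 : (KK t y l) ^ (9 / 10 : ℝ) ≤ k₀)
    (hk01 : 1 ≤ k₀) (hq : q ∈ SP t y l k₀) : 400 * (Nat.gcd k (q - 1)) ^ 2 ≤ q := by
  obtain ⟨hK1, hK2, hK3⟩ := KK_bounds hl hlL hLam num.y3 num.yu num.u1 num.hd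
  set K := KK t y l with hK
  have hKpos : 0 < K := lt_of_lt_of_le (Real.exp_pos _) hK1
  obtain ⟨hqp, _, r₁, h1, r₂, h2, h3, h4⟩ := mem_SP hq
  have hy3 := num.y3
  have hy0 : 0 ≤ y := by linarith
  obtain ⟨_, a1, a2⟩ := mem_PY hy0 h1
  obtain ⟨_, b1, b2⟩ := mem_PY hy0 h2
  have hlr : (1 : ℝ) ≤ l := by exact_mod_cast hl
  have hq1 : q - 1 = (2 * l * (r₁ * r₂)) * k₀ := by rw [h4]; omega
  have g1 : Nat.gcd k (q - 1) ≤ (2 * l * (r₁ * r₂)) * Nat.gcd k k₀ := by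
    rw [hq1]
    have hr1 : 0 < r₁ := by
      have : (0 : ℝ) < r₁ := by linarith
      exact_mod_cast this
    have hr2 : 0 < r₂ := by omega
    have hX : 0 < 2 * l * (r₁ * r₂) := by positivity
    calc Nat.gcd k ((2 * l * (r₁ * r₂)) * k₀)
        ≤ Nat.gcd k (2 * l * (r₁ * r₂)) * Nat.gcd k k₀ :=
          Nat.le_of_dvd (Nat.mul_pos (Nat.gcd_pos_of_pos_right _ hX) (Nat.gcd_pos_of_pos_right _ hk01))
            (Nat.gcd_mul_right_dvd_mul_gcd _ _ _)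
      _ ≤ _ := Nat.mul_le_mul_right _ (Nat.le_of_dvd hX (Nat.gcd_dvd_right _ _))
  have g2 : (Nat.gcd k (q - 1) : ℝ) ≤ 8 * l * y ^ 2 * K ^ (3 / 10 : ℝ) := by
    have h5 : (Nat.gcd k (q - 1) : ℝ) ≤ (2 * l * (r₁ * r₂)) * Nat.gcd k k₀ := by exact_mod_cast g1
    refine h5.trans ?_
    apply mul_le_mul _ hgcd (by positivity) (by positivity)
    calc (2 : ℝ) * l * (r₁ * r₂) ≤ 2 * l * ((2 * y) * (2 * y)) := by gcongr
      _ = _ := by ring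
  have g3 : 2 * l * y ^ 2 * K ^ (9 / 10 : ℝ) ≤ q := by
    have h5 : (q : ℝ) = 1 + 2 * l * (r₁ * r₂) * k₀ := by rw [h4]; push_cast; ring
    rw [h5]
    have h6 : 2 * l * y ^ 2 * K ^ (9 / 10 : ℝ) ≤ 2 * l * (r₁ * r₂) * k₀ := by
      have h7 : y ^ 2 ≤ (r₁ : ℝ) * r₂ := by nlinarith
      have h8 : 0 ≤ K ^ (9 / 10 : ℝ) := Real.rpow_nonneg hKpos.le _
      gcongr
    linarith
  have hK3' : 12800 * u ^ (4 * j + 3) ≤ K ^ (3 / 10 : ℝ) := by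
    refine num.hg.trans ?_
    calc Real.exp (3 / 20 * t) = (Real.exp (t / 2)) ^ (3 / 10 : ℝ) := by
          rw [← Real.exp_mul]; congr 1; ring
      _ ≤ K ^ (3 / 10 : ℝ) := Real.rpow_le_rpow (Real.exp_pos _).le hK1 (by norm_num)
  have hly : (l : ℝ) * y ^ 2 ≤ u ^ (4 * j + 3) := by
    calc (l : ℝ) * y ^ 2 ≤ u ^ (4 * j + 1) * u ^ 2 := by
          rw [hLam] at hlL
          have := num.yu
          have := num.u1
          gcongr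
      _ = _ := by ring
  have hfin : (400 : ℝ) * (Nat.gcd k (q - 1) : ℝ) ^ 2 ≤ q := by
    have e0 : 0 ≤ K ^ (3 / 10 : ℝ) := Real.rpow_nonneg hKpos.le _
    have e1 : (K ^ (3 / 10 : ℝ)) ^ 2 * K ^ (3 / 10 : ℝ) = K ^ (9 / 10 : ℝ) := by
      rw [← Real.rpow_natCast, ← Real.rpow_mul hKpos.le, ← Real.rpow_add hKpos]
      norm_num
    calc (400 : ℝ) * (Nat.gcd k (q - 1) : ℝ) ^ 2 ≤ 400 * (8 * l * y ^ 2 * K ^ (3 / 10 : ℝ)) ^ 2 := by
          gcongr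
      _ = (2 * l * y ^ 2) * ((12800 * (l * y ^ 2)) * (K ^ (3 / 10 : ℝ)) ^ 2) := by ring
      _ ≤ (2 * l * y ^ 2) * (K ^ (3 / 10 : ℝ) * (K ^ (3 / 10 : ℝ)) ^ 2) := by
          apply mul_le_mul_of_nonneg_left _ (by positivity)
          apply mul_le_mul_of_nonneg_right _ (by positivity)
          linarith
      _ = 2 * l * y ^ 2 * K ^ (9 / 10 : ℝ) := by rw [← e1]; ring
      _ ≤ q := g3
  exact_mod_cast hfin

end Pool.Agent.Work.MP_2738db_nt_U.helper40
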